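import Pool.Agent.H73.EQD.Stmts

set_option linter.unusedSimpArgs false

/-!
# Modules TAB and REF of project EQD: labels along the binding
-/

open Real Set Topology

namespace EQD

section Bind

variable {M : ℝ → ℝ} {v : E4}

lemma bind_rad (h1 : v 1 = 0) (h2 : v 2 = 0) : rad v = |v 0| := by
  unfold rad
  rw [h1, h2]
  rw [show v 0 ^ 2 + 0 ^ 2 + 0 ^ 2 = v 0 ^ 2 by ring, Real.sqrt_sq_eq_abs]

lemma bind_lat_pos (h0 : 0 < v 0) (h1 : v 1 = 0) (h2 : v 2 = 0) : lat v = π / 2 := by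
  unfold lat
  rw [bind_rad h1 h2, abs_of_pos h0, div_self h0.ne', arcsin_one]

lemma bind_lat_neg (h0 : v 0 < 0) (h1 : v 1 = 0) (h2 : v 2 = 0) : lat v = -(π / 2) := by
  unfold lat
  rw [bind_rad h1 h2, abs_of_neg h0, div_neg, div_self h0.ne, arcsin_neg, arcsin_one]

lemma bind_mem_Pg (h1 : v 1 = 0) (h2 : v 2 = 0) (j : Fin 6) : v ∈ Pg j := by
  simp [Pg, ell, dt, h1, h2]

lemma bind_dist : 1 ≤ mp v + mm v := by
  have h1 : |v 3 - 1 / 2| ≤ mp v := by
    unfold mp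
    apply Real.abs_le_sqrt
    nlinarith [sq_nonneg (rad v - 1 / 4)]
  have h2 : |v 3 + 1 / 2| ≤ mm v := by
    unfold mm
    apply Real.abs_le_sqrt
    nlinarith [sq_nonneg (rad v - 1 / 4)]
  have h3 : (1 : ℝ) ≤ |v 3 - 1 / 2| + |v 3 + 1 / 2| := by
    have a1 := neg_abs_le (v 3 - 1 / 2)
    have a2 := le_abs_self (v 3 + 1 / 2)
    linarith
  linarith

lemma pi_sub_half : π - π / 2 = π / 2 := by ring
lemma two_pi_sub_half : 2 * π - π / 2 = 3 * π / 2 := by ring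
lemma pi_add_half : π + π / 2 = 3 * π / 2 := by ring

/-- Surface conditions, positive side. -/
lemma bind_cond_pos (h0 : 0 < v 0) (h1 : v 1 = 0) (h2 : v 2 = 0) :
    (Cond M 0 v ↔ mm v = M (π / 2)) ∧
    (Cond M 1 v ↔ mp v = M (π / 2) ∨ mm v = M (3 * π / 2)) ∧
    (Cond M 2 v ↔ mm v = M (π / 2) ∨ mp v = M (3 * π / 2)) ∧
    (Cond M 3 v ↔ mp v = M (π / 2)) ∧
    (Cond M 4 v ↔ mp v = M (3 * π / 2)) ∧
    (Cond M 5 v ↔ mm v = M (3 * π / 2)) := by
  have hl := bind_lat_pos h0 h1 h2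
  have hp : 0 < π / 2 := by positivity
  have hp2 : ¬ (0 < -(π / 2)) := by linarith
  have hp3 : ¬ (-(π / 2) = 0) := by linarith
  have hp4 : -(π / 2) < 0 := by linarith
  have hp5 : ¬ (π / 2 = 0) := by linarith
  have hp6 : ¬ (π / 2 < 0) := by linarith
  refine ⟨?_, ?_, ?_, ?_, ?_, ?_⟩
  · simp only [Cond, la, m1, m2, hl, CondA, hp, hp5, hp6, false_and, true_and, false_or,
      show ((0 : Fin 6) = 0 ∨ (0 : Fin 6) = 3) by decide,
      show (0 : Fin 6) < 3 by decide, show ¬ ((0 : Fin 6) = 2 ∨ (0 : Fin 6) = 5) by decide,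
      or_true, true_or, if_true, if_false]
  · simp only [Cond, la, m1, m2, hl, CondB, hp, hp5, false_and, true_and, or_false,
      show ¬ ((1 : Fin 6) = 0 ∨ (1 : Fin 6) = 3) by decide,
      show (1 : Fin 6) < 3 by decide, show ¬ ((1 : Fin 6) = 2 ∨ (1 : Fin 6) = 5) by decide,
      or_true, true_or, if_true, if_false, pi_sub_half, two_pi_sub_half]
  · simp only [Cond, la, m1, m2, hl, CondB, hp, hp5, false_and, true_and, or_false,
      show ¬ ((2 : Fin 6) = 0 ∨ (2 : Fin 6) = 3) by decide,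
      show (2 : Fin 6) < 3 by decide, show ((2 : Fin 6) = 2 ∨ (2 : Fin 6) = 5) by decide,
      or_true, true_or, if_true, if_false, pi_sub_half, two_pi_sub_half]
  · simp only [Cond, la, m1, m2, hl, CondA, hp2, hp3, hp4, false_and, true_and, false_or, or_false,
      show ((3 : Fin 6) = 0 ∨ (3 : Fin 6) = 3) by decide,
      show ¬ ((3 : Fin 6) < 3) by decide, show ¬ ((3 : Fin 6) = 2 ∨ (3 : Fin 6) = 5) by decide,
      or_true, true_or, if_true, if_false, neg_neg]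
  · simp only [Cond, la, m1, m2, hl, CondB, hp2, hp3, false_and, or_false,
      show ¬ ((4 : Fin 6) = 0 ∨ (4 : Fin 6) = 3) by decide,
      show ¬ ((4 : Fin 6) < 3) by decide, show ¬ ((4 : Fin 6) = 2 ∨ (4 : Fin 6) = 5) by decide,
      if_false, sub_neg_eq_add, pi_add_half]
  · simp only [Cond, la, m1, m2, hl, CondB, hp2, hp3, false_and, or_false,
      show ¬ ((5 : Fin 6) = 0 ∨ (5 : Fin 6) = 3) by decide,
      show ¬ ((5 : Fin 6) < 3) by decide, show ((5 : Fin 6) = 2 ∨ (5 : Fin 6) = 5) by decide,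
      or_true, true_or, if_true, if_false, sub_neg_eq_add, pi_add_half]

/-- Surface conditions, negative side. -/
lemma bind_cond_neg (h0 : v 0 < 0) (h1 : v 1 = 0) (h2 : v 2 = 0) :
    (Cond M 3 v ↔ mm v = M (π / 2)) ∧
    (Cond M 4 v ↔ mp v = M (π / 2) ∨ mm v = M (3 * π / 2)) ∧
    (Cond M 5 v ↔ mm v = M (π / 2) ∨ mp v = M (3 * π / 2)) ∧
    (Cond M 0 v ↔ mp v = M (π / 2)) ∧
    (Cond M 1 v ↔ mp v = M (3 * π / 2)) ∧
    (Cond M 2 v ↔ mm v = M (3 * π / 2)) := by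
  have hl := bind_lat_neg h0 h1 h2
  have hp : 0 < π / 2 := by positivity
  have hp2 : ¬ (0 < -(π / 2)) := by linarith
  have hp3 : ¬ (-(π / 2) = 0) := by linarith
  have hp4 : -(π / 2) < 0 := by linarith
  have hp5 : ¬ (π / 2 = 0) := by linarith
  have hp6 : ¬ (π / 2 < 0) := by linarith
  refine ⟨?_, ?_, ?_, ?_, ?_, ?_⟩
  · simp only [Cond, la, m1, m2, hl, CondA, hp, hp5, hp6, false_and, true_and, false_or,
      show ((3 : Fin 6) = 0 ∨ (3 : Fin 6) = 3) by decide,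
      show ¬ ((3 : Fin 6) < 3) by decide, show ¬ ((3 : Fin 6) = 2 ∨ (3 : Fin 6) = 5) by decide,
      or_true, true_or, if_true, if_false, neg_neg]
  · simp only [Cond, la, m1, m2, hl, CondB, hp, hp5, false_and, true_and, or_false,
      show ¬ ((4 : Fin 6) = 0 ∨ (4 : Fin 6) = 3) by decide,
      show ¬ ((4 : Fin 6) < 3) by decide, show ¬ ((4 : Fin 6) = 2 ∨ (4 : Fin 6) = 5) by decide,
      if_false, pi_sub_half, two_pi_sub_half, neg_neg]
  · simp only [Cond, la, m1, m2, hl, CondB, hp, hp5, false_and, true_and, or_false,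
      show ¬ ((5 : Fin 6) = 0 ∨ (5 : Fin 6) = 3) by decide,
      show ¬ ((5 : Fin 6) < 3) by decide, show ((5 : Fin 6) = 2 ∨ (5 : Fin 6) = 5) by decide,
      or_true, true_or, if_true, if_false, pi_sub_half, two_pi_sub_half, neg_neg]
  · simp only [Cond, la, m1, m2, hl, CondA, hp2, hp3, hp4, false_and, true_and, false_or, or_false,
      show ((0 : Fin 6) = 0 ∨ (0 : Fin 6) = 3) by decide,
      show (0 : Fin 6) < 3 by decide, show ¬ ((0 : Fin 6) = 2 ∨ (0 : Fin 6) = 5) by decide,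
      or_true, true_or, if_true, if_false, neg_neg]
  · simp only [Cond, la, m1, m2, hl, CondB, hp2, hp3, false_and, or_false,
      show ¬ ((1 : Fin 6) = 0 ∨ (1 : Fin 6) = 3) by decide,
      show (1 : Fin 6) < 3 by decide, show ¬ ((1 : Fin 6) = 2 ∨ (1 : Fin 6) = 5) by decide,
      or_true, true_or, if_true, if_false, sub_neg_eq_add, pi_add_half]
  · simp only [Cond, la, m1, m2, hl, CondB, hp2, hp3, false_and, or_false,
      show ¬ ((2 : Fin 6) = 0 ∨ (2 : Fin 6) = 3) by decide,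
      show (2 : Fin 6) < 3 by decide, show ((2 : Fin 6) = 2 ∨ (2 : Fin 6) = 5) by decide,
      or_true, true_or, if_true, if_false, sub_neg_eq_add, pi_add_half]

open Classical in
/-- Labels, positive side. -/
lemma bind_lab_pos (h0 : 0 < v 0) (h1 : v 1 = 0) (h2 : v 2 = 0) :
    (lab M 0 v = if M (π / 2) < mm v then 0 else 1) ∧
    (lab M 1 v = if mp v < M (π / 2) then 1 else if mm v < M (3 * π / 2) then 2 else 0) ∧
    (lab M 2 v = if mm v < M (π / 2) then 1 else if mp v < M (3 * π / 2) then 2 else 0) ∧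
    (lab M 3 v = if mp v < M (π / 2) then 0 else 1) ∧
    (lab M 4 v = if mp v < M (3 * π / 2) then 1 else 0) ∧
    (lab M 5 v = if mm v < M (3 * π / 2) then 1 else 0) := by
  have hl := bind_lat_pos h0 h1 h2
  have hp : 0 < π / 2 := by positivity
  have hp2 : ¬ (0 < -(π / 2)) := by linarith
  have hp3 : -(π / 2) ≤ 0 := by linarith
  have hp6 : ¬ (π / 2 ≤ 0) := by linarith
  refine ⟨?_, ?_, ?_, ?_, ?_, ?_⟩
  · simp only [lab, la, m1, m2, hl, labA, hp, hp6, false_and, true_and, or_false,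
      show ((0 : Fin 6) = 0 ∨ (0 : Fin 6) = 3) by decide,
      show (0 : Fin 6) < 3 by decide, show ¬ ((0 : Fin 6) = 2 ∨ (0 : Fin 6) = 5) by decide,
      or_true, true_or, if_true, if_false]
  · simp only [lab, la, m1, m2, hl, labB, hp, true_and,
      show ¬ ((1 : Fin 6) = 0 ∨ (1 : Fin 6) = 3) by decide,
      show (1 : Fin 6) < 3 by decide, show ¬ ((1 : Fin 6) = 2 ∨ (1 : Fin 6) = 5) by decide,
      or_true, true_or, if_true, if_false, pi_sub_half, two_pi_sub_half]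
  · simp only [lab, la, m1, m2, hl, labB, hp, true_and,
      show ¬ ((2 : Fin 6) = 0 ∨ (2 : Fin 6) = 3) by decide,
      show (2 : Fin 6) < 3 by decide, show ((2 : Fin 6) = 2 ∨ (2 : Fin 6) = 5) by decide,
      or_true, true_or, if_true, if_false, pi_sub_half, two_pi_sub_half]
  · simp only [lab, la, m1, m2, hl, labA, hp2, hp3, false_and, true_and, false_or,
      show ((3 : Fin 6) = 0 ∨ (3 : Fin 6) = 3) by decide,
      show ¬ ((3 : Fin 6) < 3) by decide, show ¬ ((3 : Fin 6) = 2 ∨ (3 : Fin 6) = 5) by decide,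
      or_true, true_or, if_true, if_false, neg_neg]
  · simp only [lab, la, m1, m2, hl, labB, hp2, false_and,
      show ¬ ((4 : Fin 6) = 0 ∨ (4 : Fin 6) = 3) by decide,
      show ¬ ((4 : Fin 6) < 3) by decide, show ¬ ((4 : Fin 6) = 2 ∨ (4 : Fin 6) = 5) by decide,
      if_false, sub_neg_eq_add, pi_add_half]
  · simp only [lab, la, m1, m2, hl, labB, hp2, false_and,
      show ¬ ((5 : Fin 6) = 0 ∨ (5 : Fin 6) = 3) by decide,
      show ¬ ((5 : Fin 6) < 3) by decide, show ((5 : Fin 6) = 2 ∨ (5 : Fin 6) = 5) by decide,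
      or_true, true_or, if_true, if_false, sub_neg_eq_add, pi_add_half]

open Classical in
/-- Labels, negative side. -/
lemma bind_lab_neg (h0 : v 0 < 0) (h1 : v 1 = 0) (h2 : v 2 = 0) :
    (lab M 3 v = if M (π / 2) < mm v then 0 else 1) ∧
    (lab M 4 v = if mp v < M (π / 2) then 1 else if mm v < M (3 * π / 2) then 2 else 0) ∧
    (lab M 5 v = if mm v < M (π / 2) then 1 else if mp v < M (3 * π / 2) then 2 else 0) ∧
    (lab M 0 v = if mp v < M (π / 2) then 0 else 1) ∧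
    (lab M 1 v = if mp v < M (3 * π / 2) then 1 else 0) ∧
    (lab M 2 v = if mm v < M (3 * π / 2) then 1 else 0) := by
  have hl := bind_lat_neg h0 h1 h2
  have hp : 0 < π / 2 := by positivity
  have hp2 : ¬ (0 < -(π / 2)) := by linarith
  have hp3 : -(π / 2) ≤ 0 := by linarith
  have hp6 : ¬ (π / 2 ≤ 0) := by linarith
  refine ⟨?_, ?_, ?_, ?_, ?_, ?_⟩
  · simp only [lab, la, m1, m2, hl, labA, hp, hp6, false_and, true_and, or_false,
      show ((3 : Fin 6) = 0 ∨ (3 : Fin 6) = 3) by decide,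
      show ¬ ((3 : Fin 6) < 3) by decide, show ¬ ((3 : Fin 6) = 2 ∨ (3 : Fin 6) = 5) by decide,
      or_true, true_or, if_true, if_false, neg_neg]
  · simp only [lab, la, m1, m2, hl, labB, hp, true_and,
      show ¬ ((4 : Fin 6) = 0 ∨ (4 : Fin 6) = 3) by decide,
      show ¬ ((4 : Fin 6) < 3) by decide, show ¬ ((4 : Fin 6) = 2 ∨ (4 : Fin 6) = 5) by decide,
      if_false, pi_sub_half, two_pi_sub_half, neg_neg]
  · simp only [lab, la, m1, m2, hl, labB, hp, true_and,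
      show ¬ ((5 : Fin 6) = 0 ∨ (5 : Fin 6) = 3) by decide,
      show ¬ ((5 : Fin 6) < 3) by decide, show ((5 : Fin 6) = 2 ∨ (5 : Fin 6) = 5) by decide,
      or_true, true_or, if_true, if_false, pi_sub_half, two_pi_sub_half, neg_neg]
  · simp only [lab, la, m1, m2, hl, labA, hp2, hp3, false_and, true_and, false_or,
      show ((0 : Fin 6) = 0 ∨ (0 : Fin 6) = 3) by decide,
      show (0 : Fin 6) < 3 by decide, show ¬ ((0 : Fin 6) = 2 ∨ (0 : Fin 6) = 5) by decide,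
      or_true, true_or, if_true, if_false, neg_neg]
  · simp only [lab, la, m1, m2, hl, labB, hp2, false_and,
      show ¬ ((1 : Fin 6) = 0 ∨ (1 : Fin 6) = 3) by decide,
      show (1 : Fin 6) < 3 by decide, show ¬ ((1 : Fin 6) = 2 ∨ (1 : Fin 6) = 5) by decide,
      or_true, true_or, if_true, if_false, sub_neg_eq_add, pi_add_half]
  · simp only [lab, la, m1, m2, hl, labB, hp2, false_and,
      show ¬ ((2 : Fin 6) = 0 ∨ (2 : Fin 6) = 3) by decide,
      show (2 : Fin 6) < 3 by decide, show ((2 : Fin 6) = 2 ∨ (2 : Fin 6) = 5) by decide,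
      or_true, true_or, if_true, if_false, sub_neg_eq_add, pi_add_half]

/-- The five positions, in terms of the distances. -/
lemma bind_lab_five_pos (hM : Good M) (h0 : 0 < v 0) (h1 : v 1 = 0) (h2 : v 2 = 0) :
    (M (3 * π / 2) < mp v → M (3 * π / 2) < mm v → ∀ j, lab M j v = tab 0 j) ∧
    (M (π / 2) < mp v → mp v < M (3 * π / 2) → ∀ j, lab M j v = tab 1 j) ∧
    (mp v < M (π / 2) → ∀ j, lab M j v = tab 2 j) ∧
    (M (π / 2) < mm v → mm v < M (3 * π / 2) → ∀ j, lab M j v = tab 3 j) ∧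
    (mm v < M (π / 2) → ∀ j, lab M j v = tab 4 j) := by
  obtain ⟨l0, l1, l2, l3, l4, l5⟩ := bind_lab_pos (M := M) h0 h1 h2
  have hab := hM.ab
  have ha := hM.lt (π / 2)
  have hb := hM.lt (3 * π / 2)
  have hd := bind_dist (v := v)
  refine ⟨fun k1 k2 j => ?_, fun k1 k2 j => ?_, fun k1 j => ?_, fun k1 k2 j => ?_,
    fun k1 j => ?_⟩
  · have e1 : M (π / 2) < mm v := by linarith
    have e2 : ¬ (mp v < M (π / 2)) := by linarith
    have e3 : ¬ (mm v < M (3 * π / 2)) := by linarith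
    have e4 : ¬ (mm v < M (π / 2)) := by linarith
    have e5 : ¬ (mp v < M (3 * π / 2)) := by linarith
    fin_cases j <;> simp [l0, l1, l2, l3, l4, l5, e1, e2, e3, e4, e5, tab]
  · have e1 : M (π / 2) < mm v := by linarith
    have e2 : ¬ (mp v < M (π / 2)) := by linarith
    have e3 : ¬ (mm v < M (3 * π / 2)) := by linarith
    have e4 : ¬ (mm v < M (π / 2)) := by linarith
    fin_cases j <;> simp [l0, l1, l2, l3, l4, l5, e1, e2, e3, e4, k2, tab]
  · have e1 : M (π / 2) < mm v := by linarith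
    have e3 : ¬ (mm v < M (3 * π / 2)) := by linarith
    have e4 : ¬ (mm v < M (π / 2)) := by linarith
    have e5 : mp v < M (3 * π / 2) := by linarith
    fin_cases j <;> simp [l0, l1, l2, l3, l4, l5, e1, k1, e3, e4, e5, tab]
  · have e2 : ¬ (mp v < M (π / 2)) := by linarith
    have e4 : ¬ (mm v < M (π / 2)) := by linarith
    have e5 : ¬ (mp v < M (3 * π / 2)) := by linarith
    fin_cases j <;> simp [l0, l1, l2, l3, l4, l5, k1, k2, e2, e4, e5, tab]
  · have e1 : ¬ (M (π / 2) < mm v) := by linarith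
    have e2 : ¬ (mp v < M (π / 2)) := by linarith
    have e3 : mm v < M (3 * π / 2) := by linarith
    have e5 : ¬ (mp v < M (3 * π / 2)) := by linarith
    fin_cases j <;> simp [l0, l1, l2, l3, l4, l5, e1, k1, e2, e3, e5, tab]

/-- The five positions, negative side. -/
lemma bind_lab_five_neg (hM : Good M) (h0 : v 0 < 0) (h1 : v 1 = 0) (h2 : v 2 = 0) :
    (M (3 * π / 2) < mp v → M (3 * π / 2) < mm v → ∀ j, lab M j v = tab 5 j) ∧
    (M (π / 2) < mp v → mp v < M (3 * π / 2) → ∀ j, lab M j v = tab 6 j) ∧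
    (mp v < M (π / 2) → ∀ j, lab M j v = tab 7 j) ∧
    (M (π / 2) < mm v → mm v < M (3 * π / 2) → ∀ j, lab M j v = tab 8 j) ∧
    (mm v < M (π / 2) → ∀ j, lab M j v = tab 9 j) := by
  obtain ⟨l0, l1, l2, l3, l4, l5⟩ := bind_lab_neg (M := M) h0 h1 h2
  have hab := hM.ab
  have ha := hM.lt (π / 2)
  have hb := hM.lt (3 * π / 2)
  have hd := bind_dist (v := v)
  refine ⟨fun k1 k2 j => ?_, fun k1 k2 j => ?_, fun k1 j => ?_, fun k1 k2 j => ?_,
    fun k1 j => ?_⟩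
  · have e1 : M (π / 2) < mm v := by linarith
    have e2 : ¬ (mp v < M (π / 2)) := by linarith
    have e3 : ¬ (mm v < M (3 * π / 2)) := by linarith
    have e4 : ¬ (mm v < M (π / 2)) := by linarith
    have e5 : ¬ (mp v < M (3 * π / 2)) := by linarith
    fin_cases j <;> simp [l0, l1, l2, l3, l4, l5, e1, e2, e3, e4, e5, tab]
  · have e1 : M (π / 2) < mm v := by linarith
    have e2 : ¬ (mp v < M (π / 2)) := by linarith
    have e3 : ¬ (mm v < M (3 * π / 2)) := by linarith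
    have e4 : ¬ (mm v < M (π / 2)) := by linarith
    fin_cases j <;> simp [l0, l1, l2, l3, l4, l5, e1, e2, e3, e4, k2, tab]
  · have e1 : M (π / 2) < mm v := by linarith
    have e3 : ¬ (mm v < M (3 * π / 2)) := by linarith
    have e4 : ¬ (mm v < M (π / 2)) := by linarith
    have e5 : mp v < M (3 * π / 2) := by linarith
    fin_cases j <;> simp [l0, l1, l2, l3, l4, l5, e1, k1, e3, e4, e5, tab]
  · have e2 : ¬ (mp v < M (π / 2)) := by linarith
    have e4 : ¬ (mm v < M (π / 2)) := by linarith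
    have e5 : ¬ (mp v < M (3 * π / 2)) := by linarith
    fin_cases j <;> simp [l0, l1, l2, l3, l4, l5, k1, k2, e2, e4, e5, tab]
  · have e1 : ¬ (M (π / 2) < mm v) := by linarith
    have e2 : ¬ (mp v < M (π / 2)) := by linarith
    have e3 : mm v < M (3 * π / 2) := by linarith
    have e5 : ¬ (mp v < M (3 * π / 2)) := by linarith
    fin_cases j <;> simp [l0, l1, l2, l3, l4, l5, e1, k1, e2, e3, e5, tab]

/-- A point of the binding with nonzero first coordinate and distances different from the two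
critical values is not in the disk. -/
lemma bind_not_mem (h0 : v 0 ≠ 0) (h1 : v 1 = 0) (h2 : v 2 = 0)
    (ka : mp v ≠ M (π / 2)) (kb : mp v ≠ M (3 * π / 2))
    (kc : mm v ≠ M (π / 2)) (kd : mm v ≠ M (3 * π / 2)) : v ∉ Dtop M := by
  rintro (h | ⟨j, _, hj⟩)
  · have : rad v = 0 := h
    rw [bind_rad h1 h2, abs_eq_zero] at this
    exact h0 this
  · rcases lt_or_gt_of_ne h0 with hn | hp
    · obtain ⟨c3, c4, c5, c0, c1, c2⟩ := bind_cond_neg (M := M) hn h1 h2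
      fin_cases j
      · exact ka (c0.1 hj)
      · exact kb (c1.1 hj)
      · exact kd (c2.1 hj)
      · exact kc (c3.1 hj)
      · rcases c4.1 hj with h | h
        · exact ka h
        · exact kd h
      · rcases c5.1 hj with h | h
        · exact kc h
        · exact kb h
    · obtain ⟨c0, c1, c2, c3, c4, c5⟩ := bind_cond_pos (M := M) hp h1 h2
      fin_cases j
      · exact kc (c0.1 hj)
      · rcases c1.1 hj with h | h
        · exact ka h
        · exact kd h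
      · rcases c2.1 hj with h | h
        · exact kc h
        · exact kb h
      · exact ka (c3.1 hj)
      · exact kb (c4.1 hj)
      · exact kd (c5.1 hj)

/-- Conversely. -/
lemma bind_of_not_mem (h1 : v 1 = 0) (h2 : v 2 = 0) (h : v ∉ Dtop M) :
    v 0 ≠ 0 ∧ mp v ≠ M (π / 2) ∧ mp v ≠ M (3 * π / 2) ∧ mm v ≠ M (π / 2) ∧
      mm v ≠ M (3 * π / 2) := by
  have h0 : v 0 ≠ 0 := by
    intro h0
    apply h
    left
    change rad v = 0
    rw [bind_rad h1 h2, h0, abs_zero]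
  have hc : ∀ j, ¬ Cond M j v := fun j hj => h (Or.inr ⟨j, bind_mem_Pg h1 h2 j, hj⟩)
  refine ⟨h0, ?_⟩
  rcases lt_or_gt_of_ne h0 with hn | hp
  · obtain ⟨c3, c4, c5, c0, c1, c2⟩ := bind_cond_neg (M := M) hn h1 h2
    exact ⟨fun e => hc 0 (c0.2 e), fun e => hc 1 (c1.2 e), fun e => hc 3 (c3.2 e),
      fun e => hc 2 (c2.2 e)⟩
  · obtain ⟨c0, c1, c2, c3, c4, c5⟩ := bind_cond_pos (M := M) hp h1 h2
    exact ⟨fun e => hc 3 (c3.2 e), fun e => hc 4 (c4.2 e), fun e => hc 0 (c0.2 e),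
      fun e => hc 5 (c5.2 e)⟩

end Bind

/-- Module TAB. -/
theorem tabulate : S_TAB := by
  intro M hM v h1 h2 hv
  obtain ⟨h0, ka, kb, kc, kd⟩ := bind_of_not_mem h1 h2 hv
  rcases lt_or_gt_of_ne h0 with hn | hp
  · obtain ⟨f0, f1, f2, f3, f4⟩ := bind_lab_five_neg hM hn h1 h2
    rcases lt_or_gt_of_ne ka with a | a
    · exact ⟨7, f2 a⟩
    rcases lt_or_gt_of_ne kb with b | b
    · exact ⟨6, f1 a b⟩
    rcases lt_or_gt_of_ne kc with c | c
    · exact ⟨9, f4 c⟩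
    rcases lt_or_gt_of_ne kd with d | d
    · exact ⟨8, f3 c d⟩
    exact ⟨5, f0 b d⟩
  · obtain ⟨f0, f1, f2, f3, f4⟩ := bind_lab_five_pos hM hp h1 h2
    rcases lt_or_gt_of_ne ka with a | a
    · exact ⟨2, f2 a⟩
    rcases lt_or_gt_of_ne kb with b | b
    · exact ⟨1, f1 a b⟩
    rcases lt_or_gt_of_ne kc with c | c
    · exact ⟨4, f4 c⟩
    rcases lt_or_gt_of_ne kd with d | d
    · exact ⟨3, f3 c d⟩
    exact ⟨0, f0 b d⟩

section Ref

variable {M : ℝ → ℝ} {v : E4}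

lemma mp_of (h1 : v 1 = 0) (h2 : v 2 = 0) {c : ℝ} (hc : 0 ≤ c) (h0 : |v 0| = 1 / 4 + c)
    (h3 : v 3 = 1 / 2) : mp v = c := by
  unfold mp
  rw [bind_rad h1 h2, h0, h3, show (1 / 4 + c - 1 / 4) ^ 2 + ((1 : ℝ) / 2 - 1 / 2) ^ 2 = c ^ 2 by
    ring, Real.sqrt_sq hc]

lemma mm_of (h1 : v 1 = 0) (h2 : v 2 = 0) {c : ℝ} (hc : 0 ≤ c) (h0 : |v 0| = 1 / 4 + c)
    (h3 : v 3 = -(1 / 2)) : mm v = c := by
  unfold mm
  rw [bind_rad h1 h2, h0, h3, show (1 / 4 + c - 1 / 4) ^ 2 + (-((1 : ℝ) / 2) + 1 / 2) ^ 2 = c ^ 2 by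
    ring, Real.sqrt_sq hc]

lemma le_mp : |v 3 - 1 / 2| ≤ mp v := by
  unfold mp
  apply Real.abs_le_sqrt
  nlinarith [sq_nonneg (rad v - 1 / 4)]

lemma le_mm : |v 3 + 1 / 2| ≤ mm v := by
  unfold mm
  apply Real.abs_le_sqrt
  nlinarith [sq_nonneg (rad v - 1 / 4)]

lemma ref_far (hM : Good M) (h0 : v 0 ≠ 0) (h1 : v 1 = 0) (h2 : v 2 = 0) (h3 : v 3 = 0) :
    v ∉ Dtop M ∧ M (3 * π / 2) < mp v ∧ M (3 * π / 2) < mm v := by
  have ha := hM.lt (π / 2)
  have hb := hM.lt (3 * π / 2)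
  have k1 := le_mp (v := v)
  have k2 := le_mm (v := v)
  rw [h3] at k1 k2
  have e1 : |(0 : ℝ) - 1 / 2| = 1 / 2 := by norm_num
  have e2 : |(0 : ℝ) + 1 / 2| = 1 / 2 := by norm_num
  rw [e1] at k1
  rw [e2] at k2
  refine ⟨bind_not_mem h0 h1 h2 ?_ ?_ ?_ ?_, by linarith, by linarith⟩ <;> intro h <;> linarith

lemma ref_p (hM : Good M) (h1 : v 1 = 0) (h2 : v 2 = 0) (h3 : v 3 = 1 / 2)
    {c : ℝ} (hc : 0 ≤ c) (h0 : |v 0| = 1 / 4 + c) (ha : c ≠ M (π / 2)) (hb : c ≠ M (3 * π / 2)) :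
    v ∉ Dtop M ∧ mp v = c := by
  have hla := hM.lt (π / 2)
  have hlb := hM.lt (3 * π / 2)
  have k2 := le_mm (v := v)
  rw [h3] at k2
  have e2 : |(1 : ℝ) / 2 + 1 / 2| = 1 := by norm_num
  rw [e2] at k2
  have hm := mp_of h1 h2 hc h0 h3
  have hne : v 0 ≠ 0 := by
    intro h
    rw [h, abs_zero] at h0
    linarith
  refine ⟨bind_not_mem hne h1 h2 (by rw [hm]; exact ha) (by rw [hm]; exact hb) ?_ ?_, hm⟩ <;>
    intro h <;> linarith

lemma ref_m (hM : Good M) (h1 : v 1 = 0) (h2 : v 2 = 0) (h3 : v 3 = -(1 / 2))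
    {c : ℝ} (hc : 0 ≤ c) (h0 : |v 0| = 1 / 4 + c) (ha : c ≠ M (π / 2)) (hb : c ≠ M (3 * π / 2)) :
    v ∉ Dtop M ∧ mm v = c := by
  have hla := hM.lt (π / 2)
  have hlb := hM.lt (3 * π / 2)
  have k2 := le_mp (v := v)
  rw [h3] at k2
  have e2 : |-((1 : ℝ) / 2) - 1 / 2| = 1 := by norm_num
  rw [e2] at k2
  have hm := mm_of h1 h2 hc h0 h3
  have hne : v 0 ≠ 0 := by
    intro h
    rw [h, abs_zero] at h0
    linarith
  refine ⟨bind_not_mem hne h1 h2 ?_ ?_ (by rw [hm]; exact ha) (by rw [hm]; exact hb), hm⟩ <;>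
    intro h <;> linarith

lemma ref_B4 (x s : ℝ) (h : x ^ 2 + s ^ 2 ≤ 1) : (!₂[x, 0, 0, s] : E4) ∈ B4 := by
  unfold B4
  rw [mem_closedBall_zero_iff, EuclideanSpace.norm_eq, Real.sqrt_le_one]
  simp only [Fin.sum_univ_four, Real.norm_eq_abs, sq_abs]
  simpa using h

end Ref

/-- Module REF. -/
theorem refpts : S_REF := by
  intro M hM i
  have ha0 := hM.pos (π / 2)
  have ha := hM.lt (π / 2)
  have hb := hM.lt (3 * π / 2)
  have hab := hM.ab
  obtain ⟨c, hc⟩ : ∃ c, c = (M (π / 2) + M (3 * π / 2)) / 2 := ⟨_, rfl⟩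
  have hca : M (π / 2) < c := by rw [hc]; linarith
  have hcb : c < M (3 * π / 2) := by rw [hc]; linarith
  have hc0 : 0 ≤ c := by linarith
  have hc1 : 1 / 4 + c ≤ 1 / 2 := by linarith
  have hB : ∀ i, rf M i ∈ B4 := by
    intro i
    apply ref_B4
    have hsq : (1 / 4 + c) ^ 2 ≤ 1 / 4 := by nlinarith
    fin_cases i <;> simp only [rfx, rfs, ← hc] <;> norm_num [Matrix.cons_val] <;> nlinarith
  refine ⟨hB i, ?_⟩
  have hna : (0 : ℝ) ≠ M (π / 2) := ha0.ne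
  have hnb : (0 : ℝ) ≠ M (3 * π / 2) := by linarith
  have w1 : ∀ i, rf M i 1 = 0 := fun i => by simp [rf]
  have w2 : ∀ i, rf M i 2 = 0 := fun i => by simp [rf]
  have w0 : ∀ i, rf M i 0 = rfx M i := fun i => by simp [rf]
  have w3 : ∀ i, rf M i 3 = rfs i := fun i => by simp [rf]
  have x0 : rfx M 0 = 1 := rfl
  have x1 : rfx M 1 = 1 / 4 + c := by rw [hc]; rfl
  have x2 : rfx M 2 = 1 / 4 := rfl
  have x3 : rfx M 3 = 1 / 4 + c := by rw [hc]; rfl
  have x4 : rfx M 4 = 1 / 4 := rfl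
  have x5 : rfx M 5 = -1 := rfl
  have x6 : rfx M 6 = -(1 / 4 + c) := by rw [hc]; rfl
  have x7 : rfx M 7 = -(1 / 4) := rfl
  have x8 : rfx M 8 = -(1 / 4 + c) := by rw [hc]; rfl
  have x9 : rfx M 9 = -(1 / 4) := rfl
  have s0 : rfs 0 = 0 := rfl
  have s1 : rfs 1 = 1 / 2 := rfl
  have s2 : rfs 2 = 1 / 2 := rfl
  have s3 : rfs 3 = -(1 / 2) := rfl
  have s4 : rfs 4 = -(1 / 2) := rfl
  have s5 : rfs 5 = 0 := rfl
  have s6 : rfs 6 = 1 / 2 := rfl
  have s7 : rfs 7 = 1 / 2 := rfl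
  have s8 : rfs 8 = -(1 / 2) := rfl
  have s9 : rfs 9 = -(1 / 2) := rfl
  have P : ∀ i, 0 < rfx M i → _ := fun i hi =>
    bind_lab_five_pos (v := rf M i) hM (by rw [w0]; exact hi) (w1 i) (w2 i)
  have N : ∀ i, rfx M i < 0 → _ := fun i hi =>
    bind_lab_five_neg (v := rf M i) hM (by rw [w0]; exact hi) (w1 i) (w2 i)
  have cpos : (0 : ℝ) < 1 / 4 + c := by linarith
  have acp : |1 / 4 + c| = 1 / 4 + c := abs_of_pos cpos
  have aqp : |(1 : ℝ) / 4| = 1 / 4 + 0 := by norm_num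
  have acn : |-(1 / 4 + c)| = 1 / 4 + c := by rw [abs_neg, acp]
  have aqn : |-((1 : ℝ) / 4)| = 1 / 4 + 0 := by rw [abs_neg, aqp]
  fin_cases i
  · change rf M 0 ∉ Dtop M ∧ ∀ j, lab M j (rf M 0) = tab 0 j
    obtain ⟨k1, k2, k3⟩ := ref_far (v := rf M 0) hM (by rw [w0, x0]; norm_num) (w1 0) (w2 0)
      (by rw [w3, s0])
    exact ⟨k1, (P 0 (by rw [x0]; norm_num)).1 k2 k3⟩
  · change rf M 1 ∉ Dtop M ∧ ∀ j, lab M j (rf M 1) = tab 1 j
    obtain ⟨k1, k2⟩ := ref_p (v := rf M 1) hM (w1 1) (w2 1) (by rw [w3, s1]) hc0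
      (by rw [w0, x1, acp]) hca.ne' hcb.ne
    exact ⟨k1, (P 1 (by rw [x1]; exact cpos)).2.1 (by rw [k2]; exact hca) (by rw [k2]; exact hcb)⟩
  · change rf M 2 ∉ Dtop M ∧ ∀ j, lab M j (rf M 2) = tab 2 j
    obtain ⟨k1, k2⟩ := ref_p (v := rf M 2) hM (w1 2) (w2 2) (by rw [w3, s2]) le_rfl
      (by rw [w0, x2, aqp]) hna hnb
    exact ⟨k1, (P 2 (by rw [x2]; norm_num)).2.2.1 (by rw [k2]; exact ha0)⟩
  · change rf M 3 ∉ Dtop M ∧ ∀ j, lab M j (rf M 3) = tab 3 j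
    obtain ⟨k1, k2⟩ := ref_m (v := rf M 3) hM (w1 3) (w2 3) (by rw [w3, s3]) hc0
      (by rw [w0, x3, acp]) hca.ne' hcb.ne
    exact ⟨k1, (P 3 (by rw [x3]; exact cpos)).2.2.2.1 (by rw [k2]; exact hca)
      (by rw [k2]; exact hcb)⟩
  · change rf M 4 ∉ Dtop M ∧ ∀ j, lab M j (rf M 4) = tab 4 j
    obtain ⟨k1, k2⟩ := ref_m (v := rf M 4) hM (w1 4) (w2 4) (by rw [w3, s4]) le_rfl
      (by rw [w0, x4, aqp]) hna hnb
    exact ⟨k1, (P 4 (by rw [x4]; norm_num)).2.2.2.2 (by rw [k2]; exact ha0)⟩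
  · change rf M 5 ∉ Dtop M ∧ ∀ j, lab M j (rf M 5) = tab 5 j
    obtain ⟨k1, k2, k3⟩ := ref_far (v := rf M 5) hM (by rw [w0, x5]; norm_num) (w1 5) (w2 5)
      (by rw [w3, s5])
    exact ⟨k1, (N 5 (by rw [x5]; norm_num)).1 k2 k3⟩
  · change rf M 6 ∉ Dtop M ∧ ∀ j, lab M j (rf M 6) = tab 6 j
    obtain ⟨k1, k2⟩ := ref_p (v := rf M 6) hM (w1 6) (w2 6) (by rw [w3, s6]) hc0
      (by rw [w0, x6, acn]) hca.ne' hcb.ne
    exact ⟨k1, (N 6 (by rw [x6]; linarith)).2.1 (by rw [k2]; exact hca) (by rw [k2]; exact hcb)⟩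
  · change rf M 7 ∉ Dtop M ∧ ∀ j, lab M j (rf M 7) = tab 7 j
    obtain ⟨k1, k2⟩ := ref_p (v := rf M 7) hM (w1 7) (w2 7) (by rw [w3, s7]) le_rfl
      (by rw [w0, x7, aqn]) hna hnb
    exact ⟨k1, (N 7 (by rw [x7]; norm_num)).2.2.1 (by rw [k2]; exact ha0)⟩
  · change rf M 8 ∉ Dtop M ∧ ∀ j, lab M j (rf M 8) = tab 8 j
    obtain ⟨k1, k2⟩ := ref_m (v := rf M 8) hM (w1 8) (w2 8) (by rw [w3, s8]) hc0
      (by rw [w0, x8, acn]) hca.ne' hcb.ne
    exact ⟨k1, (N 8 (by rw [x8]; linarith)).2.2.2.1 (by rw [k2]; exact hca)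
      (by rw [k2]; exact hcb)⟩
  · change rf M 9 ∉ Dtop M ∧ ∀ j, lab M j (rf M 9) = tab 9 j
    obtain ⟨k1, k2⟩ := ref_m (v := rf M 9) hM (w1 9) (w2 9) (by rw [w3, s9]) le_rfl
      (by rw [w0, x9, aqn]) hna hnb
    exact ⟨k1, (N 9 (by rw [x9]; norm_num)).2.2.2.2 (by rw [k2]; exact ha0)⟩

end EQD
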