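import Pool.Agent.H73.EQD.Stmts

/-!
# Module TC of project EQD: transport along segments in a covering
-/

open Real Set Topology

namespace EQD

section TC

variable {X : Set E4} {C : Type} [TopologicalSpace C] {p : C → ↥X}

lemma segC_zero (x y : ↥X) (h : segment ℝ (x : E4) (y : E4) ⊆ X) : segC x y h 0 = x := by
  apply Subtype.ext
  simp [segC]

lemma segC_one (x y : ↥X) (h : segment ℝ (x : E4) (y : E4) ⊆ X) : segC x y h 1 = y := by
  apply Subtype.ext
  simp [segC]

lemma tr_eq (hp : IsCoveringMap p) (c : C) (y : ↥X) (h : segment ℝ (p c : E4) (y : E4) ⊆ X) :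
    tr hp c y = hp.liftPath (segC (p c) y h) c (segC_zero _ _ h) 1 := by
  unfold tr
  rw [dif_pos h]

/-- A lift of the straight path computes the transport. -/
lemma tr_eq_of_lift (hp : IsCoveringMap p) (c : C) (y : ↥X)
    (h : segment ℝ (p c : E4) (y : E4) ⊆ X) (Γ : unitInterval → C) (hΓ : Continuous Γ)
    (h0 : Γ 0 = c)
    (hl : ∀ t : unitInterval, (p (Γ t) : E4) = AffineMap.lineMap (p c : E4) (y : E4) (t : ℝ)) :
    tr hp c y = Γ 1 := by
  rw [tr_eq hp c y h]
  have : Γ = hp.liftPath (segC (p c) y h) c (segC_zero _ _ h) := by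
    rw [hp.eq_liftPath_iff]
    refine ⟨hΓ, ?_, h0⟩
    funext t
    apply Subtype.ext
    exact hl t
  rw [← this]

lemma p_tr (hp : IsCoveringMap p) (c : C) (y : ↥X) (h : segment ℝ (p c : E4) (y : E4) ⊆ X) :
    p (tr hp c y) = y := by
  rw [tr_eq hp c y h]
  have := congr_fun (hp.liftPath_lifts (segC (p c) y h) c (segC_zero _ _ h)) 1
  rw [segC_one] at this
  exact this

lemma tr_self (hp : IsCoveringMap p) (c : C) : tr hp c (p c) = c := by
  have h : segment ℝ (p c : E4) (p c : E4) ⊆ X := by
    rw [segment_same]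
    rintro _ rfl
    exact (p c).2
  exact tr_eq_of_lift hp c (p c) h (fun _ => c) continuous_const rfl (fun t => by simp)

/-- Transport depends continuously on everything. -/
lemma continuous_tr (hp : IsCoveringMap p) {A : Type} [TopologicalSpace A] (g : A → C)
    (hg : Continuous g) (y : A → ↥X) (hy : Continuous y)
    (h : ∀ a, segment ℝ (p (g a) : E4) (y a : E4) ⊆ X) : Continuous fun a => tr hp (g a) (y a) := by
  have hpc : Continuous p := hp.continuous
  let H : C(unitInterval × A, ↥X) :=
    ⟨fun q => ⟨AffineMap.lineMap (p (g q.2) : E4) (y q.2 : E4) (q.1 : ℝ), h q.2 (by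
        rw [segment_eq_image_lineMap]
        exact ⟨(q.1 : ℝ), q.1.2, rfl⟩)⟩, by
      refine Continuous.subtype_mk ?_ _
      simp only [AffineMap.lineMap_apply]
      fun_prop⟩
  have H0 : ∀ a, H (0, a) = p ((⟨g, hg⟩ : C(A, C)) a) := by
    intro a
    apply Subtype.ext
    simp [H]
  have key : ∀ a, tr hp (g a) (y a) = hp.liftHomotopy H ⟨g, hg⟩ H0 (1, a) := by
    intro a
    refine tr_eq_of_lift hp (g a) (y a) (h a) (fun t => hp.liftHomotopy H ⟨g, hg⟩ H0 (t, a))
      (by fun_prop) ?_ ?_
    · exact hp.liftHomotopy_zero H ⟨g, hg⟩ H0 a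
    · intro t
      have := congr_fun (hp.liftHomotopy_lifts H ⟨g, hg⟩ H0) (t, a)
      have h2 := congrArg (fun z : ↥X => (z : E4)) this
      exact h2
  have : (fun a => tr hp (g a) (y a)) = fun a => hp.liftHomotopy H ⟨g, hg⟩ H0 (1, a) :=
    funext key
  rw [this]
  fun_prop

end TC

/-- Module TC. -/
theorem tc : S_TC := by
  intro X C _ p hp
  refine ⟨fun c y h => p_tr hp c y h, fun c => tr_self hp c, ?_, ?_, ?_, ?_⟩
  · intro g z h
    have hc := continuous_tr hp g g.continuous (fun _ => z) continuous_const h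
    exact hp.const_of_comp hc (fun a a' => by
      rw [p_tr hp _ _ (h a), p_tr hp _ _ (h a')]) 0 1
  · intro th τ hth hcomm hτ c y hy h
    have hlift : ∀ t : unitInterval,
        (p (hp.liftPath (segC (p c) y h) c (segC_zero _ _ h) t) : E4) =
          AffineMap.lineMap (p c : E4) (y : E4) (t : ℝ) := by
      intro t
      have := congr_fun (hp.liftPath_lifts (segC (p c) y h) c (segC_zero _ _ h)) t
      exact congrArg (fun z : ↥X => (z : E4)) this
    have hlift2 : ∀ t : unitInterval,
        (p (th (hp.liftPath (segC (p c) y h) c (segC_zero _ _ h) t)) : E4) =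
          AffineMap.lineMap (p (th c) : E4) (τ y) (t : ℝ) := by
      intro t
      rw [hcomm, hlift t, hτ, hcomm]
    have hseg : segment ℝ (p (th c) : E4) ((⟨τ y, hy⟩ : ↥X) : E4) ⊆ X := by
      rw [segment_eq_image_lineMap]
      rintro _ ⟨t, ht, rfl⟩
      have := hlift2 ⟨t, ht⟩
      change AffineMap.lineMap (p (th c) : E4) (τ y) (t : ℝ) ∈ X
      rw [← this]
      exact Subtype.property _
    rw [tr_eq hp c y h]
    symm
    refine tr_eq_of_lift hp (th c) ⟨τ y, hy⟩ hseg
      (fun t => th (hp.liftPath (segC (p c) y h) c (segC_zero _ _ h) t)) ?_ ?_ hlift2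
    · exact hth.comp (ContinuousMap.continuous _)
    · exact congrArg th (hp.liftPath_zero (segC (p c) y h) c (segC_zero _ _ h))
  · intro c hc
    obtain ⟨V, hV, hVo, hcV⟩ := eventually_nhds_iff.1 hc
    have h1 : ContinuousOn (fun y => tr hp c y) V := by
      rw [continuousOn_iff_continuous_domRestrict]
      exact continuous_tr hp (fun _ : V => c) continuous_const (fun y : V => (y : ↥X))
        continuous_subtype_val (fun y => hV _ y.2)
    exact h1.continuousAt (hVo.mem_nhds hcV)
  · intro c γ h
    exact continuous_tr hp (fun _ => c) continuous_const γ γ.continuous h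

end EQD
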